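import Pool.Agent.R259.KG.Ctx
import Pool.Agent.R259.KL.Fin

/-!
# Balance of free plaquettes and bumps with a given local context
-/

set_option autoImplicit false

namespace Pool.Agent.R259.KG

open Finset Filter Topology KN Pool.Agent.R259.KL
open scoped Classical

noncomputable section

/-- the excess for a rule -/
def ex (r : ℕ) (P : Rule) (μ : ℝ) (w : List Dir) : ℝ := (fm r P w : ℝ) - μ ^ 2 * bn r P w

/-- words with large excess -/
def up (r : ℕ) (P : Rule) (Q : List Dir → Prop) (μ : ℝ) (n : ℕ) (T : ℝ) : Finset (List Dir) :=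
  (K Q n).filter (fun w => T ≤ ex r P μ w)

/-- words with small excess -/
def dn (r : ℕ) (P : Rule) (Q : List Dir → Prop) (μ : ℝ) (n : ℕ) (T : ℝ) : Finset (List Dir) :=
  (K Q n).filter (fun w => T ≤ -ex r P μ w)

variable (r : ℕ) (P : Rule)

theorem bn_le {n : ℕ} {Q : List Dir → Prop} {w : List Dir} (hw : w ∈ K Q n) : bn r P w ≤ n := by
  refine le_trans ?_ (bu_le hw)
  unfold bn mbumps bu
  exact card_filter_le _ _

theorem fm_le {n : ℕ} {Q : List Dir → Prop} {w : List Dir} (hw : w ∈ K Q n) :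
    fm r P w ≤ 6 * n := by
  refine le_trans ?_ (fr_le hw)
  unfold fm msites fr
  exact card_filter_le _ _

theorem chR (w : List Dir) (i : ℕ) (d : Dir) (hw : SAP w) (hs : site w i d) :
    (fm r P w : ℝ) ≤ fm r P (ins w i d) + 34 * ((r : ℝ) + 1) ∧
      (bn r P (ins w i d) : ℝ) ≤ bn r P w + 5 * ((r : ℝ) + 1) := by
  obtain ⟨h1, h2⟩ := change r P w i d hw hs
  have h1' : (fm r P w : ℝ) ≤ fm r P (ins w i d) + (24 + 6 * (2 * r + 1)) := by exact_mod_cast h1
  have h2' : (bn r P (ins w i d) : ℝ) ≤ bn r P w + (5 + 2 * r) := by exact_mod_cast h2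
  have hr : (0 : ℝ) ≤ r := Nat.cast_nonneg _
  constructor <;> linarith

/-- an insertion changes the excess by a bounded amount -/
theorem ex_ins (μ : ℝ) (hμ : 0 < μ) (hμ5 : μ ≤ 5) (w : List Dir) (i : ℕ) (d : Dir) (hw : SAP w)
    (hs : site w i d) : ex r P μ w - 160 * ((r : ℝ) + 1) ≤ ex r P μ (ins w i d) := by
  obtain ⟨h1, h3⟩ := chR r P w i d hw hs
  have hr : (0 : ℝ) ≤ r := Nat.cast_nonneg _
  have h4 : μ ^ 2 ≤ 25 := by nlinarith
  have h5 : μ ^ 2 * (bn r P (ins w i d) : ℝ) ≤ μ ^ 2 * (bn r P w + 5 * ((r : ℝ) + 1)) :=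
    mul_le_mul_of_nonneg_left h3 (by positivity)
  have h6 : μ ^ 2 * (5 * ((r : ℝ) + 1)) ≤ 25 * (5 * ((r : ℝ) + 1)) :=
    mul_le_mul_of_nonneg_right h4 (by positivity)
  unfold ex
  linarith

theorem up_step (Q : List Dir → Prop) (hQ : Inv Q) (μ : ℝ) (hμ : 0 < μ) (hμ5 : μ ≤ 5) (n : ℕ)
    (hn : 4 ≤ n) (T δ : ℝ) (hδ : 0 ≤ δ)
    (hT : μ ^ 2 * (δ * (n + 5 * ((r : ℝ) + 1)) + 5 * ((r : ℝ) + 1)) ≤ T) :
    ((up r P Q μ n T).card : ℝ) * (μ ^ 2 * (1 + δ)) ≤
      ((up r P Q μ (n + 2) (T - 160 * ((r : ℝ) + 1))).card : ℝ) := by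
  have hr : (0 : ℝ) ≤ r := Nat.cast_nonneg _
  have key := msum r P Q hQ n hn (fun w w' => if T ≤ ex r P μ w then 1 / (bn r P w' : ℝ) else 0)
  have hL : ((up r P Q μ n T).card : ℝ) * (μ ^ 2 * (1 + δ)) ≤
      ∑ w ∈ K Q n, ∑ q ∈ msites r P w,
        (if T ≤ ex r P μ w then 1 / (bn r P (ins w q.1 q.2) : ℝ) else 0) := by
    rw [← nsmul_eq_mul, ← sum_const]
    unfold up
    rw [sum_filter]
    refine sum_le_sum fun w hw => ?_
    split_ifs with h
    · have hwK := mem_K.1 hw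
      have h1 : ∀ q ∈ msites r P w,
          1 / ((bn r P w : ℝ) + 5 * ((r : ℝ) + 1)) ≤ 1 / (bn r P (ins w q.1 q.2) : ℝ) := by
        rintro ⟨i, d⟩ hq
        unfold msites at hq
        rw [mem_filter, mem_sites] at hq
        obtain ⟨hs, hm⟩ := hq
        have h3 := (chR r P w i d hwK.2.1 hs).2
        obtain ⟨-, -, h4, -⟩ := S_ins_proof w i d hwK.2.1 hs
        have h5 : 0 < bn r P (ins w i d) := by
          unfold bn mbumps
          refine card_pos.2 ⟨i, ?_⟩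
          rw [mem_filter, mem_bumps]
          exact ⟨h4, (mark_ins r P w i d hs.1).2 hm⟩
        have h6 : (0 : ℝ) < bn r P (ins w i d) := by exact_mod_cast h5
        exact one_div_le_one_div_of_le h6 h3
      calc μ ^ 2 * (1 + δ) ≤ (fm r P w : ℝ) * (1 / ((bn r P w : ℝ) + 5 * ((r : ℝ) + 1))) := by
            rw [mul_one_div, le_div_iff₀ (by positivity)]
            have hb : (bn r P w : ℝ) ≤ n := by exact_mod_cast bn_le r P hw
            unfold ex at h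
            have h8 : μ ^ 2 * (δ * (bn r P w + 5 * ((r : ℝ) + 1))) ≤
                μ ^ 2 * (δ * (n + 5 * ((r : ℝ) + 1))) := by gcongr
            nlinarith
        _ = ∑ _q ∈ msites r P w, 1 / ((bn r P w : ℝ) + 5 * ((r : ℝ) + 1)) := by
            rw [sum_const, nsmul_eq_mul]; rfl
        _ ≤ _ := sum_le_sum h1
    · simp
  have hR : ∑ w ∈ K Q (n + 2), ∑ j ∈ mbumps r P w,
        (if T ≤ ex r P μ (rem w j) then 1 / (bn r P w : ℝ) else 0) ≤
      ((up r P Q μ (n + 2) (T - 160 * ((r : ℝ) + 1))).card : ℝ) := by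
    have e : ((up r P Q μ (n + 2) (T - 160 * ((r : ℝ) + 1))).card : ℝ) =
        ∑ w ∈ K Q (n + 2), (if T - 160 * ((r : ℝ) + 1) ≤ ex r P μ w then (1 : ℝ) else 0) := by
      unfold up
      rw [← sum_filter, sum_const, nsmul_eq_mul, mul_one]
    rw [e]
    refine sum_le_sum fun w hw => ?_
    have hwK := mem_K.1 hw
    split_ifs with h
    · calc ∑ j ∈ mbumps r P w, (if T ≤ ex r P μ (rem w j) then 1 / (bn r P w : ℝ) else 0)
          ≤ ∑ _j ∈ mbumps r P w, 1 / (bn r P w : ℝ) := by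
            refine sum_le_sum fun j _ => ?_
            split_ifs
            · exact le_rfl
            · positivity
        _ = (bn r P w : ℝ) * (1 / bn r P w) := by rw [sum_const, nsmul_eq_mul]; rfl
        _ ≤ 1 := by
            rw [mul_one_div]
            exact div_self_le_one _
    · refine (sum_eq_zero fun j hj => ?_).le
      rw [if_neg]
      intro h2
      apply h
      unfold mbumps at hj
      rw [mem_filter, mem_bumps] at hj
      obtain ⟨r1, r2, r3, r4⟩ := S_rem_proof w j hwK.2.1 (by omega) hj.1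
      have h3 := ex_ins r P μ hμ hμ5 (rem w j) j (w.getD (j + 2) .xp) r1 r3
      rw [r4] at h3
      linarith
  calc _ ≤ _ := hL
    _ = _ := key
    _ ≤ _ := hR

theorem dn_step (Q : List Dir → Prop) (hQ : Inv Q) (μ : ℝ) (hμ : 0 < μ) (hμ5 : μ ≤ 5) (n : ℕ)
    (hn : 4 ≤ n) (T δ : ℝ) (hδ : 0 ≤ δ)
    (hT : δ * (6 * (n + 2) + 34 * ((r : ℝ) + 1)) + 34 * ((r : ℝ) + 1) ≤ T) :
    ((dn r P Q μ (n + 2) T).card : ℝ) * (1 + δ) ≤
      ((dn r P Q μ n (T - 160 * ((r : ℝ) + 1))).card : ℝ) * μ ^ 2 := by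
  have hr : (0 : ℝ) ≤ r := Nat.cast_nonneg _
  have key := msum r P Q hQ n hn (fun w w' => if T ≤ -ex r P μ w' then 1 / (fm r P w : ℝ) else 0)
  have hR : ((dn r P Q μ (n + 2) T).card : ℝ) * ((1 + δ) / μ ^ 2) ≤
      ∑ w ∈ K Q (n + 2), ∑ j ∈ mbumps r P w,
        (if T ≤ -ex r P μ w then 1 / (fm r P (rem w j) : ℝ) else 0) := by
    rw [← nsmul_eq_mul, ← sum_const]
    unfold dn
    rw [sum_filter]
    refine sum_le_sum fun w hw => ?_
    split_ifs with h
    · have hwK := mem_K.1 hw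
      have h1 : ∀ j ∈ mbumps r P w,
          1 / ((fm r P w : ℝ) + 34 * ((r : ℝ) + 1)) ≤ 1 / (fm r P (rem w j) : ℝ) := by
        intro j hj
        unfold mbumps at hj
        rw [mem_filter, mem_bumps] at hj
        obtain ⟨hb, hm⟩ := hj
        obtain ⟨r1, r2, r3, r4⟩ := S_rem_proof w j hwK.2.1 (by omega) hb
        have h3 := (chR r P (rem w j) j (w.getD (j + 2) .xp) r1 r3).1
        rw [r4] at h3
        have h5 : 0 < fm r P (rem w j) := by
          unfold fm msites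
          refine card_pos.2 ⟨(j, w.getD (j + 2) .xp), ?_⟩
          rw [mem_filter, mem_sites]
          refine ⟨r3, ?_⟩
          show sm r P (rem w j) j (w.getD (j + 2) .xp)
          rw [← mark_ins r P (rem w j) j _ r3.1, r4]
          exact hm
        have h6 : (0 : ℝ) < fm r P (rem w j) := by exact_mod_cast h5
        exact one_div_le_one_div_of_le h6 h3
      calc (1 + δ) / μ ^ 2 ≤ (bn r P w : ℝ) * (1 / ((fm r P w : ℝ) + 34 * ((r : ℝ) + 1))) := by
            rw [mul_one_div, div_le_div_iff₀ (by positivity) (by positivity)]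
            have hb : (fm r P w : ℝ) ≤ 6 * (n + 2) := by exact_mod_cast fm_le r P hw
            unfold ex at h
            have h8 : δ * ((fm r P w : ℝ) + 34 * ((r : ℝ) + 1)) ≤
                δ * (6 * (n + 2) + 34 * ((r : ℝ) + 1)) := by gcongr
            nlinarith
        _ = ∑ _q ∈ mbumps r P w, 1 / ((fm r P w : ℝ) + 34 * ((r : ℝ) + 1)) := by
            rw [sum_const, nsmul_eq_mul]; rfl
        _ ≤ _ := sum_le_sum h1
    · simp
  have hL : ∑ w ∈ K Q n, ∑ q ∈ msites r P w,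
        (if T ≤ -ex r P μ (ins w q.1 q.2) then 1 / (fm r P w : ℝ) else 0) ≤
      ((dn r P Q μ n (T - 160 * ((r : ℝ) + 1))).card : ℝ) := by
    have e : ((dn r P Q μ n (T - 160 * ((r : ℝ) + 1))).card : ℝ) =
        ∑ w ∈ K Q n, (if T - 160 * ((r : ℝ) + 1) ≤ -ex r P μ w then (1 : ℝ) else 0) := by
      unfold dn
      rw [← sum_filter, sum_const, nsmul_eq_mul, mul_one]
    rw [e]
    refine sum_le_sum fun w hw => ?_
    have hwK := mem_K.1 hw
    split_ifs with h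
    · calc ∑ q ∈ msites r P w,
            (if T ≤ -ex r P μ (ins w q.1 q.2) then 1 / (fm r P w : ℝ) else 0)
          ≤ ∑ _j ∈ msites r P w, 1 / (fm r P w : ℝ) := by
            refine sum_le_sum fun j _ => ?_
            split_ifs
            · exact le_rfl
            · positivity
        _ = (fm r P w : ℝ) * (1 / fm r P w) := by rw [sum_const, nsmul_eq_mul]; rfl
        _ ≤ 1 := by
            rw [mul_one_div]
            exact div_self_le_one _
    · refine (sum_eq_zero fun q hq => ?_).le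
      rw [if_neg]
      intro h2
      apply h
      obtain ⟨i, d⟩ := q
      unfold msites at hq
      rw [mem_filter, mem_sites] at hq
      have h3 := ex_ins r P μ hμ hμ5 w i d hwK.2.1 hq.1
      linarith
  have hf : ((dn r P Q μ (n + 2) T).card : ℝ) * ((1 + δ) / μ ^ 2) ≤
      ((dn r P Q μ n (T - 160 * ((r : ℝ) + 1))).card : ℝ) := by
    calc _ ≤ _ := hR
      _ = _ := key.symm
      _ ≤ _ := hL
  rw [mul_div_assoc', div_le_iff₀ (by positivity)] at hf
  exact hf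

theorem up_iter (Q : List Dir → Prop) (hQ : Inv Q) (μ : ℝ) (hμ : 0 < μ) (hμ5 : μ ≤ 5) (n : ℕ)
    (hn : 4 ≤ n) (T δ : ℝ) (hδ : 0 ≤ δ) (m : ℕ)
    (hT : μ ^ 2 * (δ * (n + 2 * m + 5 * ((r : ℝ) + 1)) + 5 * ((r : ℝ) + 1)) ≤
      T - 160 * ((r : ℝ) + 1) * m) :
    ∀ j : ℕ, j ≤ m → ((up r P Q μ n T).card : ℝ) * (μ ^ 2 * (1 + δ)) ^ j ≤
      ((up r P Q μ (n + 2 * j) (T - 160 * ((r : ℝ) + 1) * j)).card : ℝ) := by
  have hr : (0 : ℝ) ≤ r := Nat.cast_nonneg _
  intro j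
  induction j with
  | zero => intro _; simp
  | succ j ih =>
    intro hj
    have h1 := ih (by omega)
    have hjm : (j : ℝ) ≤ m := by exact_mod_cast (show j ≤ m by omega)
    have h2 := up_step r P Q hQ μ hμ hμ5 (n + 2 * j) (by omega)
      (T - 160 * ((r : ℝ) + 1) * j) δ hδ (by
      push_cast
      have h3 : μ ^ 2 * (δ * ((n : ℝ) + 2 * j + 5 * ((r : ℝ) + 1)) + 5 * ((r : ℝ) + 1)) ≤
          μ ^ 2 * (δ * ((n : ℝ) + 2 * m + 5 * ((r : ℝ) + 1)) + 5 * ((r : ℝ) + 1)) := by gcongr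
      have h4 : 160 * ((r : ℝ) + 1) * j ≤ 160 * ((r : ℝ) + 1) * m := by gcongr
      linarith)
    have e1 : n + 2 * (j + 1) = n + 2 * j + 2 := by ring
    have e2 : T - 160 * ((r : ℝ) + 1) * ((j + 1 : ℕ) : ℝ) =
        T - 160 * ((r : ℝ) + 1) * j - 160 * ((r : ℝ) + 1) := by push_cast; ring
    rw [e1, e2, pow_succ, ← mul_assoc]
    refine le_trans (mul_le_mul_of_nonneg_right h1 (by positivity)) h2

theorem up_bound (Q : List Dir → Prop) (hQ : Inv Q) (μ : ℝ) (hμ : 0 < μ) (hμ5 : μ ≤ 5) (n : ℕ)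
    (hn : 4 ≤ n) (T δ : ℝ) (hδ : 0 ≤ δ) (m : ℕ)
    (hT : μ ^ 2 * (δ * (n + 2 * m + 5 * ((r : ℝ) + 1)) + 5 * ((r : ℝ) + 1)) ≤
      T - 160 * ((r : ℝ) + 1) * m) :
    ((up r P Q μ n T).card : ℝ) * (μ ^ 2 * (1 + δ)) ^ m ≤ (a Q (n + 2 * m) : ℝ) := by
  refine (up_iter r P Q hQ μ hμ hμ5 n hn T δ hδ m hT m le_rfl).trans ?_
  unfold up a
  exact_mod_cast card_filter_le _ _

theorem dn_iter (Q : List Dir → Prop) (hQ : Inv Q) (μ : ℝ) (hμ : 0 < μ) (hμ5 : μ ≤ 5) (n : ℕ)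
    (hn : 4 ≤ n) (δ : ℝ) (hδ : 0 ≤ δ) (m : ℕ) :
    ∀ T : ℝ, δ * (6 * (n + 2 * m) + 34 * ((r : ℝ) + 1)) + 34 * ((r : ℝ) + 1) ≤
      T - 160 * ((r : ℝ) + 1) * m →
    ((dn r P Q μ (n + 2 * m) T).card : ℝ) * (1 + δ) ^ m ≤
      ((dn r P Q μ n (T - 160 * ((r : ℝ) + 1) * m)).card : ℝ) * (μ ^ 2) ^ m := by
  have hr : (0 : ℝ) ≤ r := Nat.cast_nonneg _
  induction m with
  | zero => intro T _; simp
  | succ m ih =>
    intro T hT
    push_cast at hT
    have hm0 : (0 : ℝ) ≤ m := Nat.cast_nonneg m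
    have hrm : 0 ≤ 160 * ((r : ℝ) + 1) * m := by positivity
    have h2 := dn_step r P Q hQ μ hμ hμ5 (n + 2 * m) (by omega) T δ hδ (by
      push_cast
      have e : (n : ℝ) + 2 * m + 2 = n + 2 * (m + 1) := by ring
      rw [e]
      nlinarith)
    have h1 := ih (T - 160 * ((r : ℝ) + 1)) (by
      have h3 : δ * (6 * ((n : ℝ) + 2 * m) + 34 * ((r : ℝ) + 1)) ≤
          δ * (6 * ((n : ℝ) + 2 * (m + 1)) + 34 * ((r : ℝ) + 1)) := by
        gcongr
        linarith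
      linarith)
    have e1 : n + 2 * (m + 1) = n + 2 * m + 2 := by ring
    have e2 : T - 160 * ((r : ℝ) + 1) * ((m + 1 : ℕ) : ℝ) =
        T - 160 * ((r : ℝ) + 1) - 160 * ((r : ℝ) + 1) * m := by push_cast; ring
    rw [e1, e2, pow_succ, pow_succ]
    calc ((dn r P Q μ (n + 2 * m + 2) T).card : ℝ) * ((1 + δ) ^ m * (1 + δ))
        = ((dn r P Q μ (n + 2 * m + 2) T).card : ℝ) * (1 + δ) * (1 + δ) ^ m := by ring
      _ ≤ ((dn r P Q μ (n + 2 * m) (T - 160 * ((r : ℝ) + 1))).card : ℝ) * μ ^ 2 * (1 + δ) ^ m :=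
          mul_le_mul_of_nonneg_right h2 (by positivity)
      _ = ((dn r P Q μ (n + 2 * m) (T - 160 * ((r : ℝ) + 1))).card : ℝ) * (1 + δ) ^ m * μ ^ 2 := by
          ring
      _ ≤ ((dn r P Q μ n (T - 160 * ((r : ℝ) + 1) - 160 * ((r : ℝ) + 1) * m)).card : ℝ) *
            (μ ^ 2) ^ m * μ ^ 2 :=
          mul_le_mul_of_nonneg_right h1 (by positivity)
      _ = _ := by ring

theorem dn_bound (Q : List Dir → Prop) (hQ : Inv Q) (μ : ℝ) (hμ : 0 < μ) (hμ5 : μ ≤ 5) (n : ℕ)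
    (hn : 4 ≤ n) (T δ : ℝ) (hδ : 0 ≤ δ) (m : ℕ)
    (hT : δ * (6 * (n + 2 * m) + 34 * ((r : ℝ) + 1)) + 34 * ((r : ℝ) + 1) ≤
      T - 160 * ((r : ℝ) + 1) * m) :
    ((dn r P Q μ (n + 2 * m) T).card : ℝ) * (1 + δ) ^ m ≤ (a Q n : ℝ) * (μ ^ 2) ^ m := by
  refine (dn_iter r P Q hQ μ hμ hμ5 n hn δ hδ m T hT).trans ?_
  refine mul_le_mul_of_nonneg_right ?_ (by positivity)
  unfold dn a
  exact_mod_cast card_filter_le _ _

end

end Pool.Agent.R259.KG
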