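import Pool.Agent.H246KN.GEN

/-!
# Local contexts of free plaquettes and of bumps

A *rule* is a property of the letters in the neighbourhood of a place of a polygon where a bump can
be added or removed. The numbers of free plaquettes and of bumps obeying a rule change by bounded
amounts when a bump is added.
-/

set_option autoImplicit false

namespace Pool.Agent.R259.KG

open Finset Filter Topology KN
open scoped Classical

noncomputable section

/-- a rule: a property of the letters before the place (nearest first), of the letters after it,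
of the direction of the edge and of the direction of the bump -/
abbrev Rule := List Dir → List Dir → Dir → Dir → Prop

/-- the `r` letters before the position `i`, the nearest first -/
def lc (r : ℕ) (w : List Dir) (i : ℕ) : List Dir := (w.take i).reverse.take r

/-- the `r` letters from the position `i` on -/
def rc (r : ℕ) (w : List Dir) (i : ℕ) : List Dir := (w.drop i).take r

/-- the rule holds at the free plaquette `(i, d)` -/
def sm (r : ℕ) (P : Rule) (w : List Dir) (i : ℕ) (d : Dir) : Prop :=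
  P (lc r w i) (rc r w (i + 1)) (w.getD i .xp) d

/-- the rule holds at the bump `j` -/
def bm (r : ℕ) (P : Rule) (w : List Dir) (j : ℕ) : Prop :=
  P (lc r w j) (rc r w (j + 3)) (w.getD (j + 1) .xp) (w.getD (j + 2) .xp)

/-- the free plaquettes obeying the rule -/
def msites (r : ℕ) (P : Rule) (w : List Dir) : Finset (ℕ × Dir) :=
  (sites w).filter (fun q => sm r P w q.1 q.2)

/-- the bumps obeying the rule -/
def mbumps (r : ℕ) (P : Rule) (w : List Dir) : Finset ℕ :=
  (bumps w).filter (fun j => bm r P w j)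

/-- the number of free plaquettes obeying the rule -/
def fm (r : ℕ) (P : Rule) (w : List Dir) : ℕ := (msites r P w).card

/-- the number of bumps obeying the rule -/
def bn (r : ℕ) (P : Rule) (w : List Dir) : ℕ := (mbumps r P w).card

section
variable (l1 l2 : List Dir) (d e : Dir) (r : ℕ)

theorem lc_low (p : ℕ) (h : p ≤ l1.length) :
    lc r (l1 ++ neg d :: e :: d :: l2) p = lc r (l1 ++ e :: l2) p := by
  unfold lc
  rw [List.take_append_of_le_length h, List.take_append_of_le_length h]

theorem rc_low (p : ℕ) (h : p + r ≤ l1.length) :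
    rc r (l1 ++ neg d :: e :: d :: l2) p = rc r (l1 ++ e :: l2) p := by
  unfold rc
  rw [List.drop_append_of_le_length (by omega), List.drop_append_of_le_length (by omega),
    List.take_append_of_le_length (by rw [List.length_drop]; omega),
    List.take_append_of_le_length (by rw [List.length_drop]; omega)]

theorem drop_hi (L : List Dir) (s : ℕ) : (l1 ++ L).drop (l1.length + s) = L.drop s := by
  rw [List.drop_append]
  simp

theorem take_hi (L : List Dir) (s : ℕ) : (l1 ++ L).take (l1.length + s) = l1 ++ L.take s := by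
  rw [List.take_append]
  simp

theorem rc_high (p : ℕ) (h : l1.length < p) :
    rc r (l1 ++ neg d :: e :: d :: l2) (p + 2) = rc r (l1 ++ e :: l2) p := by
  obtain ⟨m, rfl⟩ := Nat.exists_eq_add_of_lt h
  unfold rc
  have e1 : l1.length + m + 1 + 2 = l1.length + (m + 3) := by omega
  have e2 : l1.length + m + 1 = l1.length + (m + 1) := by omega
  rw [e1, e2, drop_hi, drop_hi]
  simp only [List.drop_succ_cons]

theorem lc_high (p : ℕ) (h : l1.length + r < p) (hp : p ≤ (l1 ++ e :: l2).length) :
    lc r (l1 ++ neg d :: e :: d :: l2) (p + 2) = lc r (l1 ++ e :: l2) p := by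
  have h' : l1.length < p := by omega
  obtain ⟨m, rfl⟩ := Nat.exists_eq_add_of_lt h'
  unfold lc
  have e1 : l1.length + m + 1 + 2 = l1.length + (m + 3) := by omega
  have e2 : l1.length + m + 1 = l1.length + (m + 1) := by omega
  rw [e1, e2, take_hi, take_hi]
  simp only [List.take_succ_cons, List.reverse_append, List.reverse_cons, List.append_assoc]
  have hl : r ≤ (l2.take m).reverse.length := by
    rw [List.length_reverse, List.length_take]
    rw [List.length_append, List.length_cons] at hp
    omega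
  rw [List.take_append_of_le_length hl, List.take_append_of_le_length hl]

theorem sm_old (P : Rule) (k : ℕ) (v : Dir) (h : k + r < l1.length ∨ l1.length + r < k)
    (hk : k < (l1 ++ e :: l2).length) :
    sm r P (l1 ++ neg d :: e :: d :: l2) (CHG.ph l1.length k) v ↔ sm r P (l1 ++ e :: l2) k v := by
  unfold sm
  rw [CHG.getD_old l1 l2 d e k (by omega)]
  unfold CHG.ph
  rcases h with h | h
  · rw [if_pos (by omega), lc_low _ _ _ _ _ _ (by omega), rc_low _ _ _ _ _ _ (by omega)]
  · rw [if_neg (by omega), lc_high _ _ _ _ _ _ (by omega) (by omega),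
      show k + 2 + 1 = k + 1 + 2 by ring, rc_high _ _ _ _ _ _ (by omega)]

theorem bm_old (P : Rule) (j : ℕ) (h : j + 2 + r < l1.length ∨ l1.length + r < j)
    (hj : j < (l1 ++ e :: l2).length) :
    bm r P (l1 ++ neg d :: e :: d :: l2) (CHG.ph l1.length j) ↔ bm r P (l1 ++ e :: l2) j := by
  unfold bm
  obtain ⟨a1, a2⟩ := CHG.ph_add l1.length j (by omega)
  have g1 := CHG.getD_old l1 l2 d e (j + 1) (by omega)
  have g2 := CHG.getD_old l1 l2 d e (j + 2) (by omega)
  rw [a1] at g1
  rw [a2] at g2
  rw [g1, g2]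
  unfold CHG.ph
  rcases h with h | h
  · rw [if_pos (by omega), lc_low _ _ _ _ _ _ (by omega), rc_low _ _ _ _ _ _ (by omega)]
  · rw [if_neg (by omega), lc_high _ _ _ _ _ _ (by omega) (by omega),
      show j + 2 + 3 = j + 3 + 2 by ring, rc_high _ _ _ _ _ _ (by omega)]

open KN.CHG in
theorem fm_down (P : Rule) (hw : SAP (l1 ++ e :: l2)) :
    fm r P (l1 ++ e :: l2) ≤ fm r P (l1 ++ neg d :: e :: d :: l2) + (24 + 6 * (2 * r + 1)) := by
  obtain ⟨-, h0, hn⟩ := hw
  set w := l1 ++ e :: l2 with hwdef
  set A := pos l2 + vec d + vec e with hA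
  set B := pos l2 + vec d with hB
  set E0 : Finset (ℕ × Dir) := Icc (l1.length - r) (l1.length + r) ×ˢ (univ : Finset Dir) with hE0
  have hc := card_le (msites r P w) (E0 ∪ (E1 w A ∪ (E1 w B ∪ (E2 w A ∪ E2 w B))))
    (msites r P (l1 ++ neg d :: e :: d :: l2)) (fun q => (ph l1.length q.1, q.2)) ?_ ?_
  · have h1 := Finset.card_union_le E0 (E1 w A ∪ (E1 w B ∪ (E2 w A ∪ E2 w B)))
    have h2 := Finset.card_union_le (E1 w A) (E1 w B ∪ (E2 w A ∪ E2 w B))
    have h3 := Finset.card_union_le (E1 w B) (E2 w A ∪ E2 w B)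
    have h4 := Finset.card_union_le (E2 w A) (E2 w B)
    have h5 : E0.card ≤ 6 * (2 * r + 1) := by
      rw [hE0, card_product, Nat.card_Icc, show (univ : Finset Dir).card = 6 by decide]
      omega
    have h6 := card_E1 w hn A
    have h7 := card_E1 w hn B
    have h8 := card_E2 w hn h0 A
    have h9 := card_E2 w hn h0 B
    unfold fm
    omega
  · rintro ⟨k, v⟩ hq hqE
    unfold msites at hq ⊢
    rw [mem_filter, mem_sites] at hq
    obtain ⟨hq, hqm⟩ := hq
    simp only [Finset.mem_union, not_or] at hqE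
    obtain ⟨hE3, hE1A, hE1B, hE2A, hE2B⟩ := hqE
    have hkr : k + r < l1.length ∨ l1.length + r < k := by
      by_contra hcon
      apply hE3
      rw [hE0, mem_product, mem_Icc]
      exact ⟨⟨by omega, by omega⟩, mem_univ _⟩
    have hki : k ≠ l1.length := by omega
    obtain ⟨q1, q2, q3, q4⟩ := hq
    rw [mem_filter, mem_sites]
    refine ⟨⟨lt_new l1 l2 d e q1 hki, ?_, ?_, ?_⟩,
      (sm_old l1 l2 d e r P k v hkr q1).2 hqm⟩
    · show perp v ((l1 ++ neg d :: e :: d :: l2).getD (ph l1.length k) .xp)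
      rw [getD_old l1 l2 d e k hki]; exact q2
    · show pos ((l1 ++ neg d :: e :: d :: l2).drop (ph l1.length k + 1)) + vec v ∉ _
      rw [pos_old l1 l2 d e k hki, mem_new]
      rintro (h | h | h)
      · exact q3 h
      · apply hE1A
        unfold E1
        simp only [mem_filter, mem_product, mem_range, mem_univ, and_true]
        exact ⟨q1, h⟩
      · apply hE1B
        unfold E1
        simp only [mem_filter, mem_product, mem_range, mem_univ, and_true]
        exact ⟨q1, h⟩
    · show pos ((l1 ++ neg d :: e :: d :: l2).drop (ph l1.length k + 1)) + vec v +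
        vec ((l1 ++ neg d :: e :: d :: l2).getD (ph l1.length k) .xp) ∉ _
      rw [pos_old l1 l2 d e k hki, getD_old l1 l2 d e k hki, mem_new]
      have hpd : pos (w.drop k) + vec v = pos (w.drop (k + 1)) + vec v + vec (w.getD k .xp) := by
        rw [pos_drop w k q1]; abel
      rintro (h | h | h)
      · exact q4 h
      · apply hE2A
        unfold E2
        simp only [mem_filter, mem_product, mem_range, mem_univ, and_true]
        exact ⟨q1, hpd.trans h⟩
      · apply hE2B
        unfold E2
        simp only [mem_filter, mem_product, mem_range, mem_univ, and_true]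
        exact ⟨q1, hpd.trans h⟩
  · rintro ⟨k, v⟩ hq hqE ⟨k', v'⟩ hq' hqE' h
    simp only [Finset.mem_union, not_or] at hqE hqE'
    have hki : k ≠ l1.length := by
      rintro rfl
      apply hqE.1
      rw [hE0, mem_product, mem_Icc]
      exact ⟨⟨by omega, by omega⟩, mem_univ _⟩
    have hki' : k' ≠ l1.length := by
      rintro rfl
      apply hqE'.1
      rw [hE0, mem_product, mem_Icc]
      exact ⟨⟨by omega, by omega⟩, mem_univ _⟩
    simp only [Prod.mk.injEq] at h
    exact Prod.ext (ph_inj _ _ _ hki hki' h.1) h.2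

open KN.CHG in
theorem bn_up (P : Rule) :
    bn r P (l1 ++ neg d :: e :: d :: l2) ≤ bn r P (l1 ++ e :: l2) + (5 + 2 * r) := by
  set i := l1.length with hi
  have hex : ∀ j, j ∉ Finset.Icc (i - (2 + r)) (i + (2 + r)) → ph i (ps i j) = j ∧
      (ps i j + 2 + r < i ∨ i + r < ps i j) := by
    intro j hj
    rw [Finset.mem_Icc] at hj
    have h1 := ph_ps i j (by omega) (by omega) (by omega)
    refine ⟨h1.1, ?_⟩
    unfold ps
    split <;> omega
  have hc := card_le (mbumps r P (l1 ++ neg d :: e :: d :: l2))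
    (Finset.Icc (i - (2 + r)) (i + (2 + r))) (mbumps r P (l1 ++ e :: l2)) (ps i) ?_ ?_
  · have h1 : (Finset.Icc (i - (2 + r)) (i + (2 + r))).card ≤ 5 + 2 * r := by
      rw [Nat.card_Icc]; omega
    unfold bn
    omega
  · intro j hj hjE
    obtain ⟨a, b⟩ := hex j hjE
    unfold mbumps at hj ⊢
    rw [mem_filter, mem_bumps] at hj ⊢
    obtain ⟨hj1, hj2⟩ := hj
    have hb : bump (l1 ++ e :: l2) (ps i j) := by
      rw [← bump_iff l1 l2 d e _ (by omega), ← hi, a]
      exact hj1
    refine ⟨hb, ?_⟩
    rw [← bm_old l1 l2 d e r P _ (by omega) (by have := hb.1; omega), ← hi, a]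
    exact hj2
  · intro j _ hjE j' _ hjE' h
    rw [← (hex j hjE).1, ← (hex j' hjE').1, h]

/-- the new bump has the context of the free plaquette -/
theorem bm_new (P : Rule) :
    bm r P (l1 ++ neg d :: e :: d :: l2) l1.length ↔ sm r P (l1 ++ e :: l2) l1.length d := by
  unfold bm sm
  rw [lc_low _ _ _ _ _ _ le_rfl]
  have h1 : rc r (l1 ++ neg d :: e :: d :: l2) (l1.length + 3) =
      rc r (l1 ++ e :: l2) (l1.length + 1) := rc_high l1 l2 d e r _ (by omega)
  have h2 : (l1 ++ neg d :: e :: d :: l2).getD (l1.length + 1) .xp =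
      (l1 ++ e :: l2).getD l1.length .xp := by
    rw [List.getD_append_right _ _ _ _ (by omega), List.getD_append_right _ _ _ _ (by omega)]
    simp
  have h3 : (l1 ++ neg d :: e :: d :: l2).getD (l1.length + 2) .xp = d := by
    rw [List.getD_append_right _ _ _ _ (by omega)]
    simp
  rw [h1, h2, h3]

end

/-- the shape of an insertion -/
theorem shape (w : List Dir) (i : ℕ) (d : Dir) (hi : i < w.length) :
    ∃ l1 l2 : List Dir, ∃ e : Dir, l1.length = i ∧ w = l1 ++ e :: l2 ∧
      ins w i d = l1 ++ neg d :: e :: d :: l2 := by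
  have hw1 : w = w.take i ++ w.getD i .xp :: w.drop (i + 1) := by
    conv_lhs => rw [← List.take_append_drop i w, drop_eq_getD_cons w i hi]
  have hlen : (w.take i).length = i := by rw [List.length_take]; omega
  have hins : ins w i d = w.take i ++ neg d :: w.getD i .xp :: d :: w.drop (i + 1) := by
    unfold ins; simp
  exact ⟨_, _, _, hlen, hw1, hins⟩

theorem mark_ins (r : ℕ) (P : Rule) (w : List Dir) (i : ℕ) (d : Dir) (hi : i < w.length) :
    bm r P (ins w i d) i ↔ sm r P w i d := by
  obtain ⟨l1, l2, e, h1, h2, h3⟩ := shape w i d hi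
  rw [h3, h2, ← h1]
  exact bm_new l1 l2 d e r P

theorem change (r : ℕ) (P : Rule) (w : List Dir) (i : ℕ) (d : Dir) (hw : SAP w)
    (hs : site w i d) : fm r P w ≤ fm r P (ins w i d) + (24 + 6 * (2 * r + 1)) ∧
      bn r P (ins w i d) ≤ bn r P w + (5 + 2 * r) := by
  obtain ⟨l1, l2, e, h1, h2, h3⟩ := shape w i d hs.1
  rw [h3, h2]
  exact ⟨fm_down l1 l2 d e r P (h2 ▸ hw), bn_up l1 l2 d e r P⟩

/-- double counting for the places obeying a rule -/
theorem msum (r : ℕ) (P : Rule) (Q : List Dir → Prop) (hQ : Inv Q) (n : ℕ) (hn : 4 ≤ n)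
    (F : List Dir → List Dir → ℝ) :
    ∑ w ∈ K Q n, ∑ q ∈ msites r P w, F w (ins w q.1 q.2) =
      ∑ w ∈ K Q (n + 2), ∑ j ∈ mbumps r P w, F (rem w j) w := by
  rw [Finset.sum_sigma', Finset.sum_sigma']
  refine Finset.sum_bij'
    (fun (x : (_ : List Dir) × (ℕ × Dir)) _ => (⟨ins x.1 x.2.1 x.2.2, x.2.1⟩ :
      (_ : List Dir) × ℕ))
    (fun (y : (_ : List Dir) × ℕ) _ => (⟨rem y.1 y.2, (y.2, y.1.getD (y.2 + 2) .xp)⟩ :
      (_ : List Dir) × (ℕ × Dir))) ?_ ?_ ?_ ?_ ?_
  · rintro ⟨w, i, d⟩ hx
    unfold msites at hx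
    rw [Finset.mem_sigma, mem_K, mem_filter, mem_sites] at hx
    obtain ⟨⟨hl, hS, hq⟩, hs, hm⟩ := hx
    obtain ⟨hS', hl', hb, -, -⟩ := S_ins_proof w i d hS hs
    unfold mbumps
    rw [Finset.mem_sigma, mem_K, mem_filter, mem_bumps]
    refine ⟨⟨?_, hS', (hQ w hS i d hs).1 hq⟩, hb, (mark_ins r P w i d hs.1).2 hm⟩
    show (ins w i d).length = n + 2
    rw [hl']
    exact congrArg (· + 2) hl
  · rintro ⟨w, j⟩ hy
    unfold mbumps at hy
    rw [Finset.mem_sigma, mem_K, mem_filter, mem_bumps] at hy
    obtain ⟨⟨hl, hS, hq⟩, hb, hm⟩ := hy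
    have hl1 : w.length = n + 2 := hl
    obtain ⟨hS', hl', hs, hi⟩ := S_rem_proof w j hS (by omega) hb
    unfold msites
    rw [Finset.mem_sigma, mem_K, mem_filter, mem_sites]
    refine ⟨⟨?_, hS', (hQ _ hS' j _ hs).2 (by rw [hi]; exact hq)⟩, hs, ?_⟩
    · show (rem w j).length = n
      omega
    · show sm r P (rem w j) j (w.getD (j + 2) .xp)
      rw [← mark_ins r P (rem w j) j _ hs.1, hi]
      exact hm
  · rintro ⟨w, i, d⟩ hx
    unfold msites at hx
    rw [Finset.mem_sigma, mem_K, mem_filter, mem_sites] at hx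
    obtain ⟨⟨hl, hS, hq⟩, hs, -⟩ := hx
    obtain ⟨-, -, -, h3, h4⟩ := S_ins_proof w i d hS hs
    show (⟨rem (ins w i d) i, (i, (ins w i d).getD (i + 2) .xp)⟩ : (_ : List Dir) × (ℕ × Dir)) =
      ⟨w, i, d⟩
    rw [h3, h4]
  · rintro ⟨w, j⟩ hy
    unfold mbumps at hy
    rw [Finset.mem_sigma, mem_K, mem_filter, mem_bumps] at hy
    obtain ⟨⟨hl, hS, hq⟩, hb, -⟩ := hy
    have hl1 : w.length = n + 2 := hl
    obtain ⟨-, -, -, hi⟩ := S_rem_proof w j hS (by omega) hb
    show (⟨ins (rem w j) j (w.getD (j + 2) .xp), j⟩ : (_ : List Dir) × ℕ) = ⟨w, j⟩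
    rw [hi]
  · rintro ⟨w, i, d⟩ hx
    unfold msites at hx
    rw [Finset.mem_sigma, mem_K, mem_filter, mem_sites] at hx
    obtain ⟨⟨hl, hS, hq⟩, hs, -⟩ := hx
    obtain ⟨-, -, -, h3, -⟩ := S_ins_proof w i d hS hs
    show F w (ins w i d) = F (rem (ins w i d) i) (ins w i d)
    rw [h3]

end

end Pool.Agent.R259.KG
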