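import Pool.Agent.R259.KG.Bal

/-!
# Balance for a given local context: the exponential and the Gaussian bound
-/

set_option autoImplicit false

namespace Pool.Agent.R259.KG

open Finset Filter Topology KN Pool.Agent.R259.KL
open scoped Classical

noncomputable section

/-- words with large absolute excess -/
def off (r : ℕ) (P : Rule) (Q : List Dir → Prop) (μ : ℝ) (n : ℕ) (T : ℝ) : Finset (List Dir) :=
  (K Q n).filter (fun w => T ≤ |ex r P μ w|)

variable (r : ℕ) (P : Rule)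

theorem off_le (Q : List Dir → Prop) (μ : ℝ) (n : ℕ) (T : ℝ) :
    ((off r P Q μ n T).card : ℝ) ≤ (up r P Q μ n T).card + (dn r P Q μ n T).card := by
  have h : off r P Q μ n T ⊆ up r P Q μ n T ∪ dn r P Q μ n T := by
    intro w hw
    unfold off at hw
    rw [mem_filter] at hw
    rw [mem_union]
    unfold up dn
    rw [mem_filter, mem_filter]
    rcases le_abs.1 hw.2 with h | h
    · exact Or.inl ⟨hw.1, h⟩
    · exact Or.inr ⟨hw.1, h⟩
  have h2 := (card_le_card h).trans (card_union_le _ _)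
  exact_mod_cast h2

theorem off_mono (Q : List Dir → Prop) (μ : ℝ) (n : ℕ) {T T' : ℝ} (h : T ≤ T') :
    ((off r P Q μ n T').card : ℝ) ≤ (off r P Q μ n T).card := by
  have : off r P Q μ n T' ⊆ off r P Q μ n T := by
    intro w hw
    unfold off at hw ⊢
    rw [mem_filter] at hw ⊢
    exact ⟨hw.1, h.trans hw.2⟩
  exact_mod_cast card_le_card this

theorem off_card (Q : List Dir → Prop) (μ : ℝ) (n : ℕ) (T : ℝ) :
    ((off r P Q μ n T).card : ℝ) ≤ a Q n := by
  unfold off a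
  exact_mod_cast card_filter_le _ _

theorem large_n (Q : List Dir → Prop) (hQ : Inv Q) (μ : ℝ) (hμ : 0 < μ) (hμ5 : μ ≤ 5)
    (ε : ℝ) (hε : 0 < ε) (hε1 : ε ≤ 1) (M : ℕ) (hM : 640 * ((r : ℝ) + 1) ≤ M * ε) (ρ τ C : ℝ)
    (hρ : 1 < ρ) (hρM : ρ ^ M = 1 + ε / 200) (hτ : 0 < τ)
    (hC : ∀ n : ℕ, (a Q n : ℝ) ≤ C * ((1 + τ) * μ) ^ n)
    (n : ℕ) (hn : 252 * ((r : ℝ) + 1) ≤ n * ε) :
    ((off r P Q μ n (ε * n)).card : ℝ) ≤ 2 * C * (1 + ε / 200) * ((1 + τ) ^ 2 / ρ * μ) ^ n := by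
  have hr : (0 : ℝ) ≤ r := Nat.cast_nonneg _
  set s : ℝ := (r : ℝ) + 1 with hs
  have hs1 : 1 ≤ s := by linarith
  set δ : ℝ := ε / 200 with hδd
  have hδ : 0 < δ := by positivity
  have hC0 : 0 ≤ C := by
    have := hC 0
    simp only [pow_zero, mul_one] at this
    exact le_trans (Nat.cast_nonneg _) this
  have hn00 : (0 : ℝ) ≤ n := Nat.cast_nonneg n
  have hn0 : 252 * s ≤ n := by nlinarith
  have hn1 : 252 ≤ n := by
    have : (252 : ℝ) ≤ n := by linarith
    exact_mod_cast this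
  have hM1 : (640 : ℝ) ≤ M := by
    have : (0 : ℝ) ≤ M := Nat.cast_nonneg M
    nlinarith
  have hM2 : 640 ≤ M := by exact_mod_cast hM1
  set m : ℕ := n / M with hm
  have e1 : M * m ≤ n := Nat.mul_div_le n M
  have e2 : n < M * (m + 1) := by
    have := Nat.lt_div_mul_add (a := n) (b := M) (by omega)
    rw [hm]
    calc n < n / M * M + M := this
      _ = M * (n / M + 1) := by ring
  have e1' : (M : ℝ) * m ≤ n := by exact_mod_cast e1
  have hm0 : (0 : ℝ) ≤ m := Nat.cast_nonneg m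
  have e3 : 160 * s * (m : ℝ) ≤ ε * n / 4 := by
    have h1 : 640 * s * m ≤ M * ε * m := by gcongr
    have h2 : ε * ((M : ℝ) * m) ≤ ε * n := by gcongr
    nlinarith
  have e4 : 640 * m ≤ n := (Nat.mul_le_mul_right m hM2).trans e1
  have e4' : 640 * (m : ℝ) ≤ n := by exact_mod_cast e4
  have hμ2 : μ ^ 2 ≤ 25 := by nlinarith
  have hup := up_bound r P Q hQ μ hμ hμ5 n (by omega) (ε * n) δ hδ.le m (by
    rw [← hs]
    have h1 : δ * ((n : ℝ) + 2 * m + 5 * s) + 5 * s ≤ δ * (2 * n) + 5 * s := by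
      have : (n : ℝ) + 2 * m + 5 * s ≤ 2 * n := by linarith
      nlinarith
    have h0 : 0 ≤ δ * ((n : ℝ) + 2 * m + 5 * s) + 5 * s := by positivity
    have h2 : μ ^ 2 * (δ * ((n : ℝ) + 2 * m + 5 * s) + 5 * s) ≤ 25 * (δ * (2 * n) + 5 * s) := by
      calc _ ≤ 25 * (δ * ((n : ℝ) + 2 * m + 5 * s) + 5 * s) := mul_le_mul_of_nonneg_right hμ2 h0
        _ ≤ _ := by linarith
    have h3 : 25 * (δ * (2 * n) + 5 * s) = ε * n / 4 + 125 * s := by rw [hδd]; ring
    linarith)
  have hdn := dn_bound r P Q hQ μ hμ hμ5 (n - 2 * m) (by omega) (ε * n) δ hδ.le m (by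
    rw [← hs]
    have h1 : ((n - 2 * m : ℕ) : ℝ) = n - 2 * m := by
      rw [Nat.cast_sub (by omega)]; push_cast; ring
    rw [h1]
    have h3 : δ * (6 * ((n : ℝ) - 2 * m + 2 * m) + 34 * s) + 34 * s =
        3 / 100 * (ε * n) + 34 / 200 * (ε * s) + 34 * s := by
      rw [hδd]; ring
    rw [h3]
    have h4 : ε * s ≤ s := by nlinarith
    linarith)
  have e5 : n - 2 * m + 2 * m = n := by omega
  rw [e5] at hdn
  have hT1 : 1 ≤ 1 + τ := by linarith
  have hρ0 : 0 < ρ := by linarith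
  have hd0 : 0 < 1 + δ := by linarith
  -- the common bound
  have hρn : ρ ^ n ≤ (1 + δ) ^ (m + 1) := by
    rw [← hρM, ← pow_mul]
    exact pow_le_pow_right₀ hρ.le e2.le
  have key : C * (1 + τ) ^ (2 * n) * μ ^ n ≤
      C * (1 + δ) * ((1 + τ) ^ 2 / ρ * μ) ^ n * (1 + δ) ^ m := by
    have h1 : ((1 + τ) ^ 2 / ρ * μ) ^ n = (1 + τ) ^ (2 * n) * μ ^ n / ρ ^ n := by
      rw [mul_pow, div_pow, ← pow_mul]; ring
    rw [h1]
    have h2 : C * (1 + δ) * ((1 + τ) ^ (2 * n) * μ ^ n / ρ ^ n) * (1 + δ) ^ m =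
        C * (1 + τ) ^ (2 * n) * μ ^ n * ((1 + δ) ^ (m + 1) / ρ ^ n) := by
      rw [pow_succ]; ring
    rw [h2]
    have h3 : 1 ≤ (1 + δ) ^ (m + 1) / ρ ^ n := by
      rw [one_le_div (by positivity)]; exact hρn
    have h4 : 0 ≤ C * (1 + τ) ^ (2 * n) * μ ^ n := by positivity
    nlinarith
  have hu2 : ((up r P Q μ n (ε * n)).card : ℝ) ≤
      C * (1 + δ) * ((1 + τ) ^ 2 / ρ * μ) ^ n := by
    have h1 : ((up r P Q μ n (ε * n)).card : ℝ) * (μ ^ 2 * (1 + δ)) ^ m ≤
        C * (1 + τ) ^ (2 * n) * μ ^ n * (μ ^ 2) ^ m := by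
      refine (hup.trans (hC _)).trans ?_
      have h2 : C * ((1 + τ) * μ) ^ (n + 2 * m) =
          C * (1 + τ) ^ (n + 2 * m) * μ ^ n * (μ ^ 2) ^ m := by
        rw [mul_pow, pow_add μ, pow_mul μ]; ring
      rw [h2]
      have h3 : (1 + τ) ^ (n + 2 * m) ≤ (1 + τ) ^ (2 * n) := pow_le_pow_right₀ hT1 (by omega)
      gcongr
    rw [mul_pow] at h1
    have hp : 0 < (μ ^ 2) ^ m := by positivity
    have h4 : ((up r P Q μ n (ε * n)).card : ℝ) * (1 + δ) ^ m ≤
        C * (1 + τ) ^ (2 * n) * μ ^ n := by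
      refine le_of_mul_le_mul_right ?_ hp
      calc _ = ((up r P Q μ n (ε * n)).card : ℝ) * ((μ ^ 2) ^ m * (1 + δ) ^ m) := by ring
        _ ≤ _ := h1
    exact le_of_mul_le_mul_right (h4.trans key) (by positivity)
  have hd2 : ((dn r P Q μ n (ε * n)).card : ℝ) ≤
      C * (1 + δ) * ((1 + τ) ^ 2 / ρ * μ) ^ n := by
    have h1 : ((dn r P Q μ n (ε * n)).card : ℝ) * (1 + δ) ^ m ≤
        C * (1 + τ) ^ (2 * n) * μ ^ n := by
      refine hdn.trans ?_
      calc (a Q (n - 2 * m) : ℝ) * (μ ^ 2) ^ m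
          ≤ C * ((1 + τ) * μ) ^ (n - 2 * m) * (μ ^ 2) ^ m :=
            mul_le_mul_of_nonneg_right (hC _) (by positivity)
        _ = C * (1 + τ) ^ (n - 2 * m) * μ ^ n := by
            have : μ ^ n = μ ^ (n - 2 * m) * (μ ^ 2) ^ m := by
              rw [← pow_mul, ← pow_add, e5]
            rw [this, mul_pow]; ring
        _ ≤ _ := by
            have h3 : (1 + τ) ^ (n - 2 * m) ≤ (1 + τ) ^ (2 * n) :=
              pow_le_pow_right₀ hT1 (by omega)
            gcongr
    exact le_of_mul_le_mul_right (h1.trans key) (by positivity)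
  have := off_le r P Q μ n (ε * n)
  linarith

/-- the exponential bound, uniform in the rule -/
theorem exp_bal (Q : List Dir → Prop) (hQ : Inv Q) (μ : ℝ) (hμ : 0 < μ) (hμ5 : μ ≤ 5)
    (hup : ∀ τ : ℝ, 0 < τ → ∃ C : ℝ, ∀ n : ℕ, (a Q n : ℝ) ≤ C * ((1 + τ) * μ) ^ n)
    (ε : ℝ) (hε : 0 < ε) :
    ∃ θ C : ℝ, 0 < θ ∧ θ < 1 ∧ 0 ≤ C ∧ ∀ P : Rule, ∀ n : ℕ,
      ((off r P Q μ n (ε * n)).card : ℝ) ≤ C * (θ * μ) ^ n := by
  have hr : (0 : ℝ) ≤ r := Nat.cast_nonneg _
  set e : ℝ := min ε 1 with he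
  have he0 : 0 < e := lt_min hε one_pos
  have he1 : e ≤ 1 := min_le_right _ _
  obtain ⟨M, hM⟩ := exists_nat_ge (640 * ((r : ℝ) + 1) / e)
  have hM' : 640 * ((r : ℝ) + 1) ≤ M * e := by rwa [div_le_iff₀ he0] at hM
  have hM0 : M ≠ 0 := by
    rintro rfl
    simp only [Nat.cast_zero, zero_mul] at hM'
    linarith
  set ρ : ℝ := (1 + e / 200) ^ ((M : ℝ)⁻¹) with hρ
  have hρM : ρ ^ M = 1 + e / 200 := Real.rpow_inv_natCast_pow (by positivity) hM0
  have hρ1 : 1 < ρ := by
    apply Real.one_lt_rpow (by linarith [show 0 < e / 200 by positivity])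
    have : (0 : ℝ) < M := by exact_mod_cast Nat.pos_of_ne_zero hM0
    positivity
  set τ : ℝ := min 1 ((ρ - 1) / 4) with hτ
  have hτ0 : 0 < τ := lt_min one_pos (by linarith)
  have hτ1 : τ ≤ 1 := min_le_left _ _
  have hτ2 : τ ≤ (ρ - 1) / 4 := min_le_right _ _
  obtain ⟨C, hC⟩ := hup τ hτ0
  set θ : ℝ := (1 + τ) ^ 2 / ρ with hθ
  have hρ0 : 0 < ρ := by linarith
  have hθ0 : 0 < θ := by positivity
  have hθ1 : θ < 1 := by
    rw [hθ, div_lt_one hρ0]
    nlinarith
  obtain ⟨N, hN⟩ := exists_nat_ge (252 * ((r : ℝ) + 1) / e)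
  have hC0 : 0 ≤ C := by
    have := hC 0
    simp only [pow_zero, mul_one] at this
    exact le_trans (Nat.cast_nonneg _) this
  have hs : 0 ≤ ∑ n ∈ range N, (a Q n : ℝ) / (θ * μ) ^ n :=
    sum_nonneg fun n _ => by positivity
  refine ⟨θ, 2 * C * (1 + e / 200) + ∑ n ∈ range N, (a Q n : ℝ) / (θ * μ) ^ n, hθ0, hθ1,
    by positivity, fun P n => ?_⟩
  have h0 : ((off r P Q μ n (ε * n)).card : ℝ) ≤ (off r P Q μ n (e * n)).card := by
    apply off_mono
    have : e ≤ ε := min_le_left _ _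
    gcongr
  have hpos : 0 < (θ * μ) ^ n := by positivity
  by_cases hn : n < N
  · have h5 := single_le_sum (f := fun n => (a Q n : ℝ) / (θ * μ) ^ n)
      (fun n _ => by positivity) (mem_range.2 hn)
    have h6 : (a Q n : ℝ) = (a Q n : ℝ) / (θ * μ) ^ n * (θ * μ) ^ n := by
      field_simp
    have h7 := off_card r P Q μ n (ε * n)
    refine h7.trans ?_
    rw [h6]
    refine mul_le_mul_of_nonneg_right ?_ hpos.le
    have : 0 ≤ 2 * C * (1 + e / 200) := by positivity
    linarith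
  · push Not at hn
    have h8 : 252 * ((r : ℝ) + 1) ≤ n * e := by
      have : (N : ℝ) ≤ n := by exact_mod_cast hn
      rw [div_le_iff₀ he0] at hN
      nlinarith
    have h9 := large_n r P Q hQ μ hμ hμ5 e he0 he1 M hM' ρ τ C hρ1 hρM hτ0 hC n h8
    refine (h0.trans h9).trans ?_
    rw [← hθ]
    refine mul_le_mul_of_nonneg_right ?_ hpos.le
    linarith

set_option maxHeartbeats 2000000 in
theorem gauss (Q : List Dir → Prop) (hQ : Inv Q) (μ : ℝ) (hμ : 0 < μ) (hμ5 : μ ≤ 5)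
    (hup : ∀ n : ℕ, (a Q n : ℝ) ≤ 32 * n * μ ^ n) (n : ℕ) (hn : 1 ≤ n) (t : ℝ) (ht : 0 ≤ t) :
    ((off r P Q μ n t).card : ℝ) ≤
      300 * n * μ ^ n * Real.exp (-(t ^ 2 / (10 ^ 6 * ((r : ℝ) + 1) * n))) := by
  have hr : (0 : ℝ) ≤ r := Nat.cast_nonneg _
  set s : ℝ := (r : ℝ) + 1 with hs
  have hs1 : 1 ≤ s := by linarith
  have hn0 : (1 : ℝ) ≤ n := by exact_mod_cast hn
  have hμ2 : μ ^ 2 ≤ 25 := by nlinarith
  have hμn : 0 < μ ^ n := by positivity
  rcases lt_or_ge (25 * (n : ℝ)) t with h2 | h2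
  · have : off r P Q μ n t = ∅ := by
      rw [eq_empty_iff_forall_notMem]
      intro w hw
      unfold off at hw
      rw [mem_filter] at hw
      have hb : (bn r P w : ℝ) ≤ n := by exact_mod_cast bn_le r P hw.1
      have hf : (fm r P w : ℝ) ≤ 6 * n := by exact_mod_cast fm_le r P hw.1
      have hb0 : (0 : ℝ) ≤ bn r P w := Nat.cast_nonneg _
      have hf0 : (0 : ℝ) ≤ fm r P w := Nat.cast_nonneg _
      have h3 : μ ^ 2 * (bn r P w : ℝ) ≤ 25 * n := by
        calc _ ≤ 25 * (bn r P w : ℝ) := mul_le_mul_of_nonneg_right hμ2 hb0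
          _ ≤ _ := by linarith
      have h4 : 0 ≤ μ ^ 2 * (bn r P w : ℝ) := by positivity
      have h5 : |ex r P μ w| ≤ 25 * n := by
        unfold ex
        rw [abs_le]
        constructor <;> linarith
      linarith [hw.2]
    rw [this]
    simp only [card_empty, Nat.cast_zero]
    positivity
  rcases le_or_gt t (1280 * s) with h1 | h1
  · refine (off_card r P Q μ n t).trans ((hup n).trans ?_)
    have h2' : t ^ 2 / (10 ^ 6 * s * n) ≤ 2 := by
      rw [div_le_iff₀ (by positivity)]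
      have h3 : t ^ 2 ≤ 1280 * s * (25 * n) := by nlinarith
      nlinarith [mul_pos (show (0 : ℝ) < s by linarith) (show (0 : ℝ) < n by linarith)]
    have h3 : Real.exp (-2) ≤ Real.exp (-(t ^ 2 / (10 ^ 6 * s * n))) :=
      Real.exp_le_exp.2 (by linarith)
    have h4 : (1 : ℝ) / 9 ≤ Real.exp (-2) := by
      have h5 : Real.exp 2 ≤ 9 := by
        have e : Real.exp 2 = Real.exp 1 * Real.exp 1 := by
          rw [← Real.exp_add]; norm_num
        have := Real.exp_one_lt_d9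
        have := Real.exp_pos 1
        rw [e]
        nlinarith
      rw [Real.exp_neg, ← one_div]
      exact one_div_le_one_div_of_le (Real.exp_pos 2) h5
    have h6 : 0 < (n : ℝ) * μ ^ n := by positivity
    nlinarith
  · set m : ℕ := ⌊t / (640 * s)⌋₊ with hm
    set δ : ℝ := t / (200 * n) with hδ
    have hδ0 : 0 ≤ δ := by positivity
    have hδn : δ * n = t / 200 := by rw [hδ]; field_simp
    have hδ1 : δ ≤ 1 := by
      rw [hδ, div_le_one (by positivity)]
      linarith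
    have hm1 : (m : ℝ) ≤ t / (640 * s) := Nat.floor_le (by positivity)
    have hm1' : 640 * s * m ≤ t := by
      rw [le_div_iff₀ (by positivity)] at hm1
      linarith
    have hm2' : 2 ≤ t / (640 * s) := by
      rw [le_div_iff₀ (by positivity)]
      linarith
    have hm2 : t / (1280 * s) ≤ m := by
      have := Nat.lt_floor_add_one (t / (640 * s))
      rw [← hm] at this
      have e : t / (1280 * s) = t / (640 * s) / 2 := by
        field_simp
        ring
      rw [e]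
      linarith
    have hn51 : 51 * s < n := by linarith
    have hm00 : (0 : ℝ) ≤ m := Nat.cast_nonneg m
    have hmt : 640 * (m : ℝ) ≤ t := by nlinarith
    have hmn : 2 * (m : ℝ) ≤ n / 12 := by linarith
    have hmn' : 2 * m ≤ n := by
      have : 2 * (m : ℝ) ≤ n := by linarith
      exact_mod_cast this
    have hmn'' : 4 ≤ n - 2 * m := by
      have : (4 : ℝ) + 2 * m ≤ n := by linarith
      have : 4 + 2 * m ≤ n := by exact_mod_cast this
      omega
    have hup1 := up_bound r P Q hQ μ hμ hμ5 n (by omega) t δ hδ0 m (by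
      rw [← hs]
      have h3 : δ * ((n : ℝ) + 2 * m + 5 * s) + 5 * s ≤ δ * (6 / 5 * n) + 5 * s := by
        have : (n : ℝ) + 2 * m + 5 * s ≤ 6 / 5 * n := by linarith
        nlinarith
      have h0 : 0 ≤ δ * ((n : ℝ) + 2 * m + 5 * s) + 5 * s := by positivity
      have h4 : μ ^ 2 * (δ * ((n : ℝ) + 2 * m + 5 * s) + 5 * s) ≤
          25 * (δ * (6 / 5 * n) + 5 * s) := by
        calc _ ≤ 25 * (δ * ((n : ℝ) + 2 * m + 5 * s) + 5 * s) :=
              mul_le_mul_of_nonneg_right hμ2 h0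
          _ ≤ _ := by linarith
      have h5 : 25 * (δ * (6 / 5 * n) + 5 * s) = 30 * (δ * n) + 125 * s := by ring
      rw [h5, hδn] at h4
      linarith)
    have hdn1 := dn_bound r P Q hQ μ hμ hμ5 (n - 2 * m) hmn'' t δ hδ0 m (by
      rw [← hs]
      have e1 : ((n - 2 * m : ℕ) : ℝ) = n - 2 * m := by
        rw [Nat.cast_sub hmn']; push_cast; ring
      rw [e1]
      have h3 : δ * (6 * ((n : ℝ) - 2 * m + 2 * m) + 34 * s) + 34 * s ≤
          7 * (δ * n) + 34 * s := by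
        have : δ * (34 * s) ≤ δ * n := by
          apply mul_le_mul_of_nonneg_left _ hδ0
          linarith
        nlinarith
      rw [hδn] at h3
      linarith)
    have e5 : n - 2 * m + 2 * m = n := by omega
    rw [e5] at hdn1
    have hd0 : 0 < 1 + δ := by linarith
    have hu : ((up r P Q μ n t).card : ℝ) * (1 + δ) ^ m ≤ 64 * n * μ ^ n := by
      have hp : 0 < (μ ^ 2) ^ m := by positivity
      refine le_of_mul_le_mul_right ?_ hp
      calc ((up r P Q μ n t).card : ℝ) * (1 + δ) ^ m * (μ ^ 2) ^ m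
          = ((up r P Q μ n t).card : ℝ) * (μ ^ 2 * (1 + δ)) ^ m := by rw [mul_pow]; ring
        _ ≤ (a Q (n + 2 * m) : ℝ) := hup1
        _ ≤ 32 * ((n + 2 * m : ℕ) : ℝ) * μ ^ (n + 2 * m) := hup _
        _ ≤ 64 * n * μ ^ (n + 2 * m) := by
            have : ((n + 2 * m : ℕ) : ℝ) ≤ 2 * n := by push_cast; linarith
            have h7 : 0 < μ ^ (n + 2 * m) := by positivity
            nlinarith
        _ = _ := by rw [pow_add, pow_mul]; ring
    have hd : ((dn r P Q μ n t).card : ℝ) * (1 + δ) ^ m ≤ 32 * n * μ ^ n := by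
      calc _ ≤ (a Q (n - 2 * m) : ℝ) * (μ ^ 2) ^ m := hdn1
        _ ≤ 32 * ((n - 2 * m : ℕ) : ℝ) * μ ^ (n - 2 * m) * (μ ^ 2) ^ m :=
            mul_le_mul_of_nonneg_right (hup _) (by positivity)
        _ = 32 * ((n - 2 * m : ℕ) : ℝ) * μ ^ n := by
            have : μ ^ n = μ ^ (n - 2 * m) * (μ ^ 2) ^ m := by
              rw [← pow_mul, ← pow_add, e5]
            rw [this]; ring
        _ ≤ _ := by
            have : ((n - 2 * m : ℕ) : ℝ) ≤ n := by exact_mod_cast Nat.sub_le _ _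
            gcongr
    have hE : Real.exp (t ^ 2 / (10 ^ 6 * s * n)) ≤ (1 + δ) ^ m := by
      calc Real.exp (t ^ 2 / (10 ^ 6 * s * n)) ≤ Real.exp (m * (δ / 2)) := by
            apply Real.exp_le_exp.2
            have h3 : t / (1280 * s) * (δ / 2) ≤ m * (δ / 2) := by gcongr
            refine le_trans ?_ h3
            rw [hδ, div_le_iff₀ (by positivity)]
            have : t / (1280 * s) * (t / (200 * n) / 2) * (10 ^ 6 * s * n) =
                t ^ 2 * (10 ^ 6 / 512000) := by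
              field_simp
              ring
            rw [this]
            nlinarith [sq_nonneg t]
        _ = Real.exp (δ / 2) ^ m := by rw [← Real.exp_nat_mul]
        _ ≤ _ := pow_le_pow_left₀ (Real.exp_pos _).le (exp_half_le hδ0 hδ1) _
    have hsum := off_le r P Q μ n t
    have h8 : ((off r P Q μ n t).card : ℝ) * (1 + δ) ^ m ≤ 96 * n * μ ^ n := by
      have : ((off r P Q μ n t).card : ℝ) * (1 + δ) ^ m ≤
          ((up r P Q μ n t).card + (dn r P Q μ n t).card) * (1 + δ) ^ m := by gcongr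
      nlinarith
    rw [Real.exp_neg, ← div_eq_mul_inv, le_div_iff₀ (Real.exp_pos _)]
    calc ((off r P Q μ n t).card : ℝ) * Real.exp (t ^ 2 / (10 ^ 6 * s * n))
        ≤ ((off r P Q μ n t).card : ℝ) * (1 + δ) ^ m := by gcongr
      _ ≤ 96 * n * μ ^ n := h8
      _ ≤ 300 * n * μ ^ n := by
          have : 0 < (n : ℝ) * μ ^ n := by positivity
          nlinarith

end

end Pool.Agent.R259.KG
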