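import Pool.Agent.R259.KG.Exp

/-!
# Balance for all local contexts at the same time
-/

set_option autoImplicit false

namespace Pool.Agent.R259.KG

open Finset Filter Topology KN Pool.Agent.R259.KL
open scoped Classical

noncomputable section

/-- the words of length at most `r` -/
def ctxs (r : ℕ) : Finset (List Dir) := (range (r + 1)).biUnion W

/-- the possible contexts -/
def atoms (r : ℕ) : Finset (List Dir × List Dir × Dir × Dir) :=
  ctxs r ×ˢ ctxs r ×ˢ univ ×ˢ univ

theorem mem_ctxs {r : ℕ} {l : List Dir} (h : l.length ≤ r) : l ∈ ctxs r := by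
  unfold ctxs
  rw [mem_biUnion]
  exact ⟨l.length, mem_range.2 (by omega), mem_W.2 rfl⟩

theorem mem_atoms (r : ℕ) (l : List Dir) (l' : List Dir) (e d : Dir) (h : l.length ≤ r)
    (h' : l'.length ≤ r) : (l, l', e, d) ∈ atoms r := by
  unfold atoms
  simp only [mem_product, mem_univ, and_true]
  exact ⟨mem_ctxs h, mem_ctxs h'⟩

/-- the rule given by a set of contexts -/
def rule (S : Finset (List Dir × List Dir × Dir × Dir)) : Rule := fun l l' e d => (l, l', e, d) ∈ S

theorem lc_len (r : ℕ) (w : List Dir) (i : ℕ) : (lc r w i).length ≤ r := by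
  unfold lc
  rw [List.length_take]
  exact min_le_left _ _

theorem rc_len (r : ℕ) (w : List Dir) (i : ℕ) : (rc r w i).length ≤ r := by
  unfold rc
  rw [List.length_take]
  exact min_le_left _ _

theorem rule_sm (r : ℕ) (P : Rule) (w : List Dir) (i : ℕ) (d : Dir) :
    sm r P w i d ↔
      sm r (rule ((atoms r).filter (fun x => P x.1 x.2.1 x.2.2.1 x.2.2.2))) w i d := by
  unfold sm rule
  rw [mem_filter]
  simp only [mem_atoms r _ _ _ _ (lc_len r w i) (rc_len r w (i + 1)), true_and]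

theorem rule_bm (r : ℕ) (P : Rule) (w : List Dir) (j : ℕ) :
    bm r P w j ↔ bm r (rule ((atoms r).filter (fun x => P x.1 x.2.1 x.2.2.1 x.2.2.2))) w j := by
  unfold bm rule
  rw [mem_filter]
  simp only [mem_atoms r _ _ _ _ (lc_len r w j) (rc_len r w (j + 3)), true_and]

theorem rule_ex (r : ℕ) (P : Rule) (μ : ℝ) (w : List Dir) :
    ex r P μ w =
      ex r (rule ((atoms r).filter (fun x => P x.1 x.2.1 x.2.2.1 x.2.2.2))) μ w := by
  have h1 : msites r P w =
      msites r (rule ((atoms r).filter (fun x => P x.1 x.2.1 x.2.2.1 x.2.2.2))) w := by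
    unfold msites
    apply filter_congr
    intro q _
    exact rule_sm r P w q.1 q.2
  have h2 : mbumps r P w =
      mbumps r (rule ((atoms r).filter (fun x => P x.1 x.2.1 x.2.2.1 x.2.2.2))) w := by
    unfold mbumps
    apply filter_congr
    intro j _
    exact rule_bm r P w j
  unfold ex fm bn
  rw [← h1, ← h2]

theorem true_fm (r : ℕ) (w : List Dir) : fm r (fun _ _ _ _ => True) w = fr w := by
  have h : msites r (fun _ _ _ _ => True) w = sites w := by
    refine subset_antisymm (filter_subset _ _) ?_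
    intro x hx
    unfold msites
    refine mem_filter.2 ⟨hx, ?_⟩
    unfold sm
    trivial
  unfold fm fr
  rw [h]

theorem true_bn (r : ℕ) (w : List Dir) : bn r (fun _ _ _ _ => True) w = bu w := by
  have h : mbumps r (fun _ _ _ _ => True) w = bumps w := by
    refine subset_antisymm (filter_subset _ _) ?_
    intro x hx
    unfold mbumps
    refine mem_filter.2 ⟨hx, ?_⟩
    unfold bm
    trivial
  unfold bn bu
  rw [h]

/-- the words for which some rule of radius `r` is out of balance -/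
def anyoff (r : ℕ) (Q : List Dir → Prop) (μ : ℝ) (n : ℕ) (T : ℝ) : Finset (List Dir) :=
  (K Q n).filter (fun w => ∃ P : Rule, T ≤ |(fm r P w : ℝ) - μ ^ 2 * bn r P w|)

theorem anyoff_le (r : ℕ) (Q : List Dir → Prop) (μ : ℝ) (n : ℕ) (T B : ℝ)
    (hB : ∀ P : Rule, ((off r P Q μ n T).card : ℝ) ≤ B) :
    ((anyoff r Q μ n T).card : ℝ) ≤ (atoms r).powerset.card * B := by
  have hsub : anyoff r Q μ n T ⊆ (atoms r).powerset.biUnion (fun S => off r (rule S) Q μ n T) := by
    intro w hw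
    unfold anyoff at hw
    rw [mem_filter] at hw
    obtain ⟨hw1, P, hP⟩ := hw
    rw [mem_biUnion]
    refine ⟨(atoms r).filter (fun x => P x.1 x.2.1 x.2.2.1 x.2.2.2), mem_powerset.2
      (filter_subset _ _), ?_⟩
    unfold off
    rw [mem_filter]
    refine ⟨hw1, ?_⟩
    rw [← rule_ex r P μ w]
    exact hP
  calc ((anyoff r Q μ n T).card : ℝ)
      ≤ (((atoms r).powerset.biUnion (fun S => off r (rule S) Q μ n T)).card : ℝ) := by
        exact_mod_cast card_le_card hsub
    _ ≤ ∑ S ∈ (atoms r).powerset, ((off r (rule S) Q μ n T).card : ℝ) := by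
        exact_mod_cast card_biUnion_le
    _ ≤ ∑ _S ∈ (atoms r).powerset, B := sum_le_sum fun S _ => hB _
    _ = _ := by rw [sum_const, nsmul_eq_mul]

/-- the local contexts are in balance, all at the same time -/
theorem simult (r : ℕ) (Q : List Dir → Prop) (hQ : KClass Q) (hne : ∃ w, SAP w ∧ Q w) (ε : ℝ)
    (hε : 0 < ε) : ∃ θ C : ℝ, 0 < θ ∧ θ < 1 ∧ 0 ≤ C ∧ ∀ n : ℕ,
      ((anyoff r Q (gr Q) n (ε * n)).card : ℝ) ≤ C * (θ * gr Q) ^ n := by
  obtain ⟨h1, -, h2⟩ := gr_bounds Q hQ hne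
  have hg0 : 0 < gr Q := by linarith
  obtain ⟨θ, C, b1, b2, b3, b4⟩ := exp_bal r Q (GEN.inv_of Q hQ) (gr Q) hg0 h2
    (fun τ hτ => GEN.upper S_five_proof Q hg0 τ hτ) ε hε
  refine ⟨θ, (atoms r).powerset.card * C, b1, b2, by positivity, fun n => ?_⟩
  refine (anyoff_le r Q (gr Q) n (ε * n) (C * (θ * gr Q) ^ n) (fun P => b4 P n)).trans ?_
  rw [mul_assoc]

/-- proportion form for classes closed under connected sums -/
theorem proportion (r : ℕ) (Q : List Dir → Prop) (hQ : KClass Q) (hne : ∃ w, SAP w ∧ Q w)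
    (hc : CSum Q) (ε : ℝ) (hε : 0 < ε) : ∃ θ : ℝ, 0 < θ ∧ θ < 1 ∧ ∀ᶠ j : ℕ in atTop,
      0 < a Q (2 * j) ∧
      ((anyoff r Q (gr Q) (2 * j) (ε * ((2 * j : ℕ) : ℝ))).card : ℝ) ≤
        θ ^ (2 * j) * a Q (2 * j) := by
  obtain ⟨h1, -, h2⟩ := gr_bounds Q hQ hne
  have hg0 : 0 < gr Q := by linarith
  obtain ⟨θ, C, t0, t1, hC, hb⟩ := simult r Q hQ hne ε hε
  have hlim := (GEN.root_iff Q (gr Q)).1 (class_sum Q hQ hne hc).1
  -- choose `σ` with `θ < σ < 1`
  set s : ℝ := Real.sqrt (Real.sqrt θ) with hs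
  have hs0 : 0 < s := by positivity
  have hs1 : s < 1 := by
    rw [hs, Real.sqrt_lt' one_pos, one_pow, Real.sqrt_lt' one_pos, one_pow]
    exact t1
  have hs4 : s ^ 4 = θ := by
    rw [hs, show (4 : ℕ) = 2 * 2 from rfl, pow_mul, Real.sq_sqrt (by positivity),
      Real.sq_sqrt t0.le]
  have ev1 : ∀ᶠ j : ℕ in atTop, s * gr Q < (a Q (2 * j) : ℝ) ^ (1 / (2 * j : ℝ)) :=
    hlim.eventually_const_lt (by nlinarith)
  have ev2 : ∀ᶠ j : ℕ in atTop, C * s ^ (2 * j) ≤ 1 := by
    have h3 : Tendsto (fun j : ℕ => C * (s ^ 2) ^ j) atTop (𝓝 (C * 0)) :=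
      (tendsto_pow_atTop_nhds_zero_of_lt_one (by positivity) (by nlinarith)).const_mul C
    rw [mul_zero] at h3
    filter_upwards [h3.eventually_le_const one_pos] with j hj
    rw [pow_mul]
    exact hj
  refine ⟨s ^ 2, by positivity, by nlinarith, ?_⟩
  filter_upwards [ev1, ev2, eventually_gt_atTop 0] with j e1 e2 hj
  have hj0 : (0 : ℝ) < j := by exact_mod_cast hj
  have e3 : (s * gr Q) ^ (2 * j) ≤ (a Q (2 * j) : ℝ) := by
    have e4 : (a Q (2 * j) : ℝ) = ((a Q (2 * j) : ℝ) ^ (1 / (2 * j : ℝ))) ^ (2 * j) := by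
      rw [← Real.rpow_natCast, ← Real.rpow_mul (Nat.cast_nonneg _)]
      push_cast
      rw [one_div_mul_cancel (by positivity), Real.rpow_one]
    rw [e4]
    exact pow_le_pow_left₀ (by positivity) e1.le _
  have e5 : 0 < (s * gr Q) ^ (2 * j) := by positivity
  refine ⟨by exact_mod_cast e5.trans_le e3, ?_⟩
  calc ((anyoff r Q (gr Q) (2 * j) (ε * ((2 * j : ℕ) : ℝ))).card : ℝ)
      ≤ C * (θ * gr Q) ^ (2 * j) := hb _
    _ = C * s ^ (2 * j) * ((s ^ 2) ^ (2 * j) * (s * gr Q) ^ (2 * j)) := by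
        rw [← hs4]; ring
    _ ≤ 1 * ((s ^ 2) ^ (2 * j) * (s * gr Q) ^ (2 * j)) :=
        mul_le_mul_of_nonneg_right e2 (by positivity)
    _ ≤ _ := by
        rw [one_mul]
        exact mul_le_mul_of_nonneg_left e3 (by positivity)

end

end Pool.Agent.R259.KG
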